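import Mathlib
import Pool.Agent.Q102.Trade4Main

/-!
MP_c009d0_co, Q1 (partial): every `r ≥ 3` has the property.
-/

namespace Pool.Agent.Results.MP_c009d0_co.ThreeAndMore

open Finset Pool.Agent.Q102.Trade

/-- there is a sequence `(G_k)` (`k ≥ 2`) of complete simple games with exactly `r` shift-minimal
winning coalition types such that `G_k` is `k`-trade robust but not `(k + 1)`-trade robust -/
def HasProperty (r : ℕ) : Prop :=
  ∀ k : ℕ, 2 ≤ k → ∃ (N : Type) (_ : Fintype N) (_ : DecidableEq N) (W : Finset N → Prop),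
    IsSimple W ∧ Complete W ∧ numShiftMin W = r ∧ TradeRobust k W ∧ ¬ TradeRobust (k + 1) W

/-- **Partial answer to Q1 of MP_c009d0_co.** Every `r ≥ 3` has the property. -/
theorem result (r : ℕ) (hr : 3 ≤ r) : HasProperty r := by
  intro k hk
  obtain ⟨N, i1, i2, W, h1, h2, -, -, h3, h4, h5⟩ := exists_game (r - 3) k hk
  exact ⟨N, i1, i2, W, h1, h2, by omega, h4, h5⟩

end Pool.Agent.Results.MP_c009d0_co.ThreeAndMore
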